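import Pool.Agent.NCub.Stmts

set_option autoImplicit false

/-!
# Squad NC, row CLO: the closing theorem
-/

namespace Pool.Agent.NCub.H39

open Pool.Agent.OM Pool.Agent.NCub

/-- Three independent vectors span. -/
theorem span3 {a b d : V} (h : Ind a b d) (v : V) : ∃ x y z : ℝ, v = x • a + y • b + z • d := by
  let f : (ℝ × ℝ × ℝ) →ₗ[ℝ] V :=
    { toFun := fun p => p.1 • a + p.2.1 • b + p.2.2 • d
      map_add' := by
        intro p q
        simp only [Prod.fst_add, Prod.snd_add, add_smul]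
        abel
      map_smul' := by
        intro r p
        simp only [Prod.smul_fst, Prod.smul_snd, smul_eq_mul, mul_smul, smul_add,
          RingHom.id_apply] }
  have hinj : Function.Injective f := by
    rw [injective_iff_map_eq_zero]
    intro p hp
    obtain ⟨h1, h2, h3⟩ := h p.1 p.2.1 p.2.2 hp
    exact Prod.ext h1 (Prod.ext h2 h3)
  have hsurj : Function.Surjective f := LinearMap.surjective_of_injective hinj
  obtain ⟨p, hp⟩ := hsurj v
  exact ⟨p.1, p.2.1, p.2.2, hp.symm⟩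

/-- Coordinates are unique. -/
theorem uniq3 {a b d : V} (h : Ind a b d) {x y z x' y' z' : ℝ}
    (he : x • a + y • b + z • d = x' • a + y' • b + z' • d) : x = x' ∧ y = y' ∧ z = z' := by
  have h0 : (x - x') • a + (y - y') • b + (z - z') • d = 0 := by
    have : (x - x') • a + (y - y') • b + (z - z') • d =
        (x • a + y • b + z • d) - (x' • a + y' • b + z' • d) := by
      simp only [sub_smul]
      abel
    rw [this, he, sub_self]
  obtain ⟨h1, h2, h3⟩ := h _ _ _ h0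
  exact ⟨by linarith, by linarith, by linarith⟩

section frame

variable (c : Fin 10 → ℝ) (a b d : V) (x y z : ℝ)

theorem Taa : 3 * T c a a (x • a + y • b + z • d) =
    3 * x * G c a + y * (3 * T c a a b) + z * (3 * T c a a d) := by
  simp only [T_add_right, T_smul_right, G]
  ring

theorem Ta : 3 * T c a (x • a + y • b + z • d) (x • a + y • b + z • d) =
    3 * x ^ 2 * G c a + 2 * x * (y * (3 * T c a a b) + z * (3 * T c a a d)) +
      y ^ 2 * (3 * T c a b b) + z ^ 2 * (3 * T c a d d) + y * z * (6 * T c a b d) := by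
  simp only [T_add_right, T_smul_right, T_add_mid, T_smul_mid, G]
  rw [T_swap23 c a b a, T_swap23 c a d a, T_swap23 c a d b]
  ring

theorem Tbb : 3 * T c b b (x • a + y • b + z • d) =
    3 * y * G c b + x * (3 * T c a b b) + z * (3 * T c b b d) := by
  simp only [T_add_right, T_smul_right, G]
  rw [T_swap23 c b b a, T_swap12 c b a b]
  ring

theorem Tb : 3 * T c b (x • a + y • b + z • d) (x • a + y • b + z • d) =
    3 * y ^ 2 * G c b + 2 * y * (x * (3 * T c a b b) + z * (3 * T c b b d)) +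
      x ^ 2 * (3 * T c a a b) + z ^ 2 * (3 * T c b d d) + x * z * (6 * T c a b d) := by
  simp only [T_add_right, T_smul_right, T_add_mid, T_smul_mid, G]
  rw [T_swap12 c b a a, T_swap23 c a b a, T_swap12 c b a b, T_swap12 c b a d, T_swap23 c b b a,
    T_swap12 c b a b, T_swap23 c b d a, T_swap12 c b a d, T_swap23 c b d b]
  ring

theorem Tdd : 3 * T c d d (x • a + y • b + z • d) =
    3 * z * G c d + x * (3 * T c a d d) + y * (3 * T c b d d) := by
  simp only [T_add_right, T_smul_right, G]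
  rw [T_swap23 c d d a, T_swap12 c d a d, T_swap23 c d d b, T_swap12 c d b d]
  ring

theorem Td : 3 * T c d (x • a + y • b + z • d) (x • a + y • b + z • d) =
    3 * z ^ 2 * G c d + 2 * z * (x * (3 * T c a d d) + y * (3 * T c b d d)) +
      x ^ 2 * (3 * T c a a d) + y ^ 2 * (3 * T c b b d) + x * y * (6 * T c a b d) := by
  simp only [T_add_right, T_smul_right, T_add_mid, T_smul_mid, G]
  rw [T_swap12 c d a a, T_swap23 c a d a, T_swap12 c d a b, T_swap12 c d a d,
    T_swap12 c d b a, T_swap12 c d b b, T_swap12 c d b d, T_swap23 c d d a, T_swap12 c d a d,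
    T_swap23 c d d b, T_swap12 c d b d, T_swap23 c a d b, T_swap23 c b d a, T_swap12 c b a d,
    T_swap23 c b d b]
  ring

theorem det_frame (x y z x' y' z' : ℝ) :
    det3 (x • a + y • b + z • d) d (x' • a + y' • b + z' • d) =
      (y * x' - x * y') * det3 a b d := by
  simp only [det3, Prod.fst_add, Prod.snd_add, Prod.smul_fst, Prod.smul_snd, smul_eq_mul]
  ring

end frame

theorem sm3 (a b d : V) (r x y z : ℝ) : r • (x • a + y • b + z • d) =
    (r * x) • a + (r * y) • b + (r * z) • d := by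
  rw [smul_add, smul_add, smul_smul, smul_smul, smul_smul]

theorem sm2 (a b : V) (r x y : ℝ) : r • (x • a + y • b) = (r * x) • a + (r * y) • b := by
  rw [smul_add, smul_smul, smul_smul]

/-- Vieta for two different zeros. -/
theorem vieta {P Q R u v : ℝ} (hu : P * u ^ 2 + Q * u + R = 0) (hv : P * v ^ 2 + Q * v + R = 0)
    (h : v ≠ u) : P * u * v = R ∧ Q = -(P * (u + v)) := by
  have h1 : (v - u) * (P * (u + v) + Q) = 0 := by linear_combination hv - hu
  have h2 : P * (u + v) + Q = 0 := by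
    rcases mul_eq_zero.1 h1 with h3 | h3
    · exact absurd (by linarith) h
    · exact h3
  refine ⟨?_, by linarith⟩
  linear_combination u * h2 - hu

theorem ind_b {a b d : V} (h : Ind a b d) {x y z k : ℝ} (hy : y ≠ 0 ∨ z ≠ 0) :
    x • a + y • b + z • d ≠ k • a := by
  intro he
  have h1 : x • a + y • b + z • d = k • a + (0 : ℝ) • b + (0 : ℝ) • d := by
    rw [he, zero_smul, zero_smul, add_zero, add_zero]
  obtain ⟨_, h2, h3⟩ := uniq3 h h1
  rcases hy with hy | hy
  · exact hy h2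
  · exact hy h3

theorem ind_a {a b d : V} (h : Ind a b d) {x y z k : ℝ} (hy : x ≠ 0 ∨ z ≠ 0) :
    x • a + y • b + z • d ≠ k • b := by
  intro he
  have h1 : x • a + y • b + z • d = (0 : ℝ) • a + k • b + (0 : ℝ) • d := by
    rw [he, zero_smul, zero_smul, add_zero, zero_add]
  obtain ⟨h2, _, h3⟩ := uniq3 h h1
  rcases hy with hy | hy
  · exact hy h2
  · exact hy h3

theorem ind_d {a b d : V} (h : Ind a b d) {x y z k : ℝ} (hy : x ≠ 0 ∨ y ≠ 0) :
    x • a + y • b + z • d ≠ k • d := by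
  intro he
  have h1 : x • a + y • b + z • d = (0 : ℝ) • a + (0 : ℝ) • b + k • d := by
    rw [he, zero_smul, zero_smul, zero_add, zero_add]
  obtain ⟨h2, h3, _⟩ := uniq3 h h1
  rcases hy with hy | hy
  · exact hy h2
  · exact hy h3

/-- The closing theorem in coordinates: the four points. -/
theorem chain_coords {c : Fin 10 → ℝ} {a b d p₁ p₂ p₃ p₄ : V}
    (h : Chain c a b d p₁ p₂ p₃ p₄) (α β γ δ ε ζ η : ℝ)
    (hα : 3 * T c a a b = α) (hβ : 3 * T c a a d = β) (hγ : 3 * T c a b b = γ)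
    (hδ : 3 * T c b b d = δ) (hε : 3 * T c a d d = ε) (hζ : 3 * T c b d d = ζ)
    (hη : 6 * T c a b d = η) :
    ∃ B' C' D' E' J N κ : ℝ, B' = β * γ ^ 2 + δ * α ^ 2 - η * α * γ ∧
      C' = γ * β ^ 2 + ε * α ^ 2 - η * α * β ∧ D' = δ * β - ζ * α ∧ E' = ε * γ - ζ * α ∧
      J = α * δ * ε + β * γ * ζ - η * α * ζ ∧ N = α ^ 2 * E' + β * B' ∧
      α ≠ 0 ∧ γ ≠ 0 ∧ N ≠ 0 ∧ D' ≠ 0 ∧ κ ≠ 0 ∧
      p₄ = κ • ((α * J * D') • a + (J * C') • b + (-(N * D')) • d) := by
  obtain ⟨ind, na, nb, nd, ⟨⟨s₁, t₁, hs₁, ht₁, hp₁⟩, hG₁⟩, ⟨⟨s₂, t₂, hs₂, ht₂, hp₂⟩, hG₂⟩,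
    ⟨⟨s₃, t₃, hs₃, ht₃, hp₃⟩, hG₃⟩, ⟨⟨s₄, t₄, hs₄, ht₄, hp₄⟩, hG₄⟩⟩ := h
  have Ga := na.1
  have Gb := nb.1
  have Gd := nd.1
  have GF : ∀ x y z : ℝ, G c (x • a + y • b + z • d) =
      α * x ^ 2 * y + β * x ^ 2 * z + γ * y ^ 2 * x + δ * y ^ 2 * z + ε * z ^ 2 * x +
        ζ * z ^ 2 * y + η * x * y * z := by
    intro x y z
    rw [G_frame, Ga, Gb, Gd, hα, hβ, hγ, hδ, hε, hζ, hη]
    ring
  have FA : ∀ x y z : ℝ, 3 * T c a a (x • a + y • b + z • d) = α * y + β * z := by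
    intro x y z
    rw [Taa, Ga, hα, hβ]
    ring
  have FA2 : ∀ x y z : ℝ, 3 * T c a (x • a + y • b + z • d) (x • a + y • b + z • d) =
      2 * x * (α * y + β * z) + γ * y ^ 2 + ε * z ^ 2 + η * y * z := by
    intro x y z
    rw [Ta, Ga, hα, hβ, hγ, hε, hη]
    ring
  have FB : ∀ x y z : ℝ, 3 * T c b b (x • a + y • b + z • d) = γ * x + δ * z := by
    intro x y z
    rw [Tbb, Gb, hγ, hδ]
    ring
  have FB2 : ∀ x y z : ℝ, 3 * T c b (x • a + y • b + z • d) (x • a + y • b + z • d) =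
      2 * y * (γ * x + δ * z) + α * x ^ 2 + ζ * z ^ 2 + η * x * z := by
    intro x y z
    rw [Tb, Gb, hγ, hδ, hα, hζ, hη]
    ring
  have FD : ∀ x y z : ℝ, 3 * T c d d (x • a + y • b + z • d) = ε * x + ζ * y := by
    intro x y z
    rw [Tdd, Gd, hε, hζ]
    ring
  have FD2 : ∀ x y z : ℝ, 3 * T c d (x • a + y • b + z • d) (x • a + y • b + z • d) =
      2 * z * (ε * x + ζ * y) + β * x ^ 2 + δ * y ^ 2 + η * x * y := by
    intro x y z
    rw [Td, Gd, hε, hζ, hβ, hδ, hη]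
    ring
  -- no lines
  have NA : ∀ y z : ℝ, (y ≠ 0 ∨ z ≠ 0) → α * y + β * z = 0 → γ * y ^ 2 + ε * z ^ 2 + η * y * z = 0 →
      δ * y ^ 2 * z + ζ * z ^ 2 * y = 0 → False := by
    intro y z hyz e1 e2 e3
    have k1 := FA 0 y z
    have k2 := FA2 0 y z
    have k3 := GF 0 y z
    obtain ⟨k, hk⟩ := na.2 ((0 : ℝ) • a + y • b + z • d) (by linarith)
      (by nlinarith [k2, e2]) (by nlinarith [k3, e3])
    exact ind_b ind hyz hk
  have NB : ∀ x z : ℝ, (x ≠ 0 ∨ z ≠ 0) → γ * x + δ * z = 0 → α * x ^ 2 + ζ * z ^ 2 + η * x * z = 0 →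
      β * x ^ 2 * z + ε * z ^ 2 * x = 0 → False := by
    intro x z hyz e1 e2 e3
    have k1 := FB x 0 z
    have k2 := FB2 x 0 z
    have k3 := GF x 0 z
    obtain ⟨k, hk⟩ := nb.2 (x • a + (0 : ℝ) • b + z • d) (by linarith)
      (by nlinarith [k2, e2]) (by nlinarith [k3, e3])
    exact ind_a ind hyz hk
  have ND : ∀ x y : ℝ, (x ≠ 0 ∨ y ≠ 0) → ε * x + ζ * y = 0 → β * x ^ 2 + δ * y ^ 2 + η * x * y = 0 →
      α * x ^ 2 * y + γ * y ^ 2 * x = 0 → False := by
    intro x y hyz e1 e2 e3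
    have k1 := FD x y 0
    have k2 := FD2 x y 0
    have k3 := GF x y 0
    obtain ⟨k, hk⟩ := nd.2 (x • a + y • b + (0 : ℝ) • d) (by linarith)
      (by nlinarith [k2, e2]) (by nlinarith [k3, e3])
    exact ind_d ind hyz hk
  -- the point p₁
  have hp₁' : p₁ = s₁ • a + t₁ • b + (0 : ℝ) • d := by rw [hp₁, zero_smul, add_zero]
  have r₁ : s₁ * α + t₁ * γ = 0 := by
    have k := GF s₁ t₁ 0
    rw [← hp₁', hG₁] at k
    have k2 : (s₁ * t₁) * (s₁ * α + t₁ * γ) = 0 := by linear_combination -k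
    rcases mul_eq_zero.1 k2 with h1 | h1
    · exact absurd h1 (mul_ne_zero hs₁ ht₁)
    · exact h1
  have hα0 : α ≠ 0 := by
    intro h0
    have h1 : γ = 0 := by
      rw [h0] at r₁
      rcases mul_eq_zero.1 (show t₁ * γ = 0 by linarith) with h2 | h2
      · exact absurd h2 ht₁
      · exact h2
    exact NA 1 0 (Or.inl one_ne_zero) (by rw [h0]; ring) (by rw [h1]; ring) (by ring)
  have hγ0 : γ ≠ 0 := by
    intro h0
    rw [h0] at r₁
    rcases mul_eq_zero.1 (show s₁ * α = 0 by linarith) with h2 | h2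
    · exact hs₁ h2
    · exact hα0 h2
  obtain ⟨l₁, hl₁, e1a, e1b⟩ : ∃ l : ℝ, l ≠ 0 ∧ s₁ = l * γ ∧ t₁ = -(l * α) := by
    refine ⟨s₁ / γ, div_ne_zero hs₁ hγ0, by field_simp, ?_⟩
    field_simp
    linarith
  obtain ⟨B', hB'⟩ : ∃ B', B' = β * γ ^ 2 + δ * α ^ 2 - η * α * γ := ⟨_, rfl⟩
  obtain ⟨C', hC'⟩ : ∃ C', C' = γ * β ^ 2 + ε * α ^ 2 - η * α * β := ⟨_, rfl⟩
  obtain ⟨D', hD'⟩ : ∃ D', D' = δ * β - ζ * α := ⟨_, rfl⟩
  obtain ⟨E', hE'⟩ : ∃ E', E' = ε * γ - ζ * α := ⟨_, rfl⟩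
  obtain ⟨J, hJ⟩ : ∃ J, J = α * δ * ε + β * γ * ζ - η * α * ζ := ⟨_, rfl⟩
  obtain ⟨N, hN⟩ : ∃ N, N = α ^ 2 * E' + β * B' := ⟨_, rfl⟩
  -- the point p₂
  obtain ⟨l₂, hl₂, hp₂'⟩ : ∃ l : ℝ, l ≠ 0 ∧
      p₂ = (l * γ) • a + (-(l * α)) • b + t₂ • d := by
    refine ⟨s₂ * l₁, mul_ne_zero hs₂ hl₁, ?_⟩
    rw [hp₂, hp₁, e1a, e1b, smul_add, smul_smul, smul_smul]
    congr 2
    · congr 1; ring
    · congr 1; ring
  have r₂ : l₂ * B' + t₂ * E' = 0 := by
    have k := GF (l₂ * γ) (-(l₂ * α)) t₂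
    rw [← hp₂', hG₂] at k
    have k2 : (l₂ * t₂) * (l₂ * B' + t₂ * E') = 0 := by
      rw [hB', hE']
      linear_combination -k
    rcases mul_eq_zero.1 k2 with h1 | h1
    · exact absurd h1 (mul_ne_zero hl₂ ht₂)
    · exact h1
  have hE0 : E' ≠ 0 := by
    intro h0
    have h1 : B' = 0 := by
      rw [h0] at r₂
      rcases mul_eq_zero.1 (show l₂ * B' = 0 by linarith) with h2 | h2
      · exact absurd h2 hl₂
      · exact h2
    exact ND γ (-α) (Or.inl hγ0) (by rw [hE'] at h0; linarith)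
      (by rw [hB'] at h1; linarith) (by ring)
  have hB0 : B' ≠ 0 := by
    intro h0
    rw [h0] at r₂
    rcases mul_eq_zero.1 (show t₂ * E' = 0 by linarith) with h2 | h2
    · exact ht₂ h2
    · exact hE0 h2
  obtain ⟨m, hm, e2a, e2b⟩ : ∃ m : ℝ, m ≠ 0 ∧ l₂ = m * E' ∧ t₂ = -(m * B') := by
    refine ⟨l₂ / E', div_ne_zero hl₂ hE0, by field_simp, ?_⟩
    field_simp
    linarith
  have g₂ : G c ((γ * E') • a + (-(α * E')) • b + (-B') • d) = 0 := by
    rw [GF, hE', hB']
    ring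
  -- the point p₃
  obtain ⟨n, hn, x₃, hx₃, hp₃'⟩ : ∃ n : ℝ, n ≠ 0 ∧ ∃ x₃ : ℝ, x₃ ≠ γ * E' ∧
      p₃ = n • (x₃ • a + (-(α * E')) • b + (-B') • d) := by
    refine ⟨s₃ * m, mul_ne_zero hs₃ hm, γ * E' + t₃ / (s₃ * m), ?_, ?_⟩
    · intro h0
      have : t₃ / (s₃ * m) = 0 := by linarith
      rcases div_eq_zero_iff.1 this with h1 | h1
      · exact ht₃ h1
      · exact mul_ne_zero hs₃ hm h1
    · rw [hp₃, hp₂', e2a, e2b]
      have h5 : s₃ * m * (γ * E' + t₃ / (s₃ * m)) = s₃ * (m * E' * γ) + t₃ := by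
        field_simp
      rw [sm3, sm3, h5, add_smul, show s₃ * -(m * E' * α) = s₃ * m * -(α * E') by ring,
        show s₃ * -(m * B') = s₃ * m * -B' by ring]
      abel
  have G_s : ∀ (r : ℝ) (v : V), G c (r • v) = r ^ 3 * G c v := by
    intro r v
    simp only [G, T_smul_left, T_smul_mid, T_smul_right]
    ring
  have g₃ : G c (x₃ • a + (-(α * E')) • b + (-B') • d) = 0 := by
    rw [hp₃', G_s] at hG₃
    rcases mul_eq_zero.1 hG₃ with h1 | h1
    · exact absurd h1 (pow_ne_zero 3 hn)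
    · exact h1
  have v₃ := vieta (P := -N) (Q := γ * (α * E') ^ 2 + ε * B' ^ 2 + η * (α * E') * B')
    (R := -(δ * (α * E') ^ 2 * B' + ζ * B' ^ 2 * (α * E'))) (u := γ * E') (v := x₃)
    (by rw [GF] at g₂; rw [hN]; linear_combination g₂)
    (by rw [GF] at g₃; rw [hN]; linear_combination g₃) hx₃
  have hN0 : N ≠ 0 := by
    intro h0
    obtain ⟨w1, w2⟩ := v₃
    rw [h0] at w1 w2
    refine NA (-(α * E')) (-B') (Or.inr (neg_ne_zero.2 hB0)) ?_ ?_ ?_
    · rw [hN] at h0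
      linear_combination -h0
    · linear_combination w2
    · linear_combination -w1
  have x3N : N * x₃ = α * B' * J := by
    have hne : γ * E' ≠ 0 := mul_ne_zero hγ0 hE0
    apply mul_left_cancel₀ hne
    have w1 := v₃.1
    have id1 : δ * α * E' + ζ * B' = γ * J := by
      rw [hE', hB', hJ]; ring
    linear_combination -w1 + (α * E' * B') * id1
  -- the point p₄
  obtain ⟨r, hr, y₄, hy₄, hp₄'⟩ : ∃ r : ℝ, r ≠ 0 ∧ ∃ y₄ : ℝ, y₄ ≠ -(α * E') ∧
      p₄ = r • (x₃ • a + y₄ • b + (-B') • d) := by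
    refine ⟨s₄ * n, mul_ne_zero hs₄ hn, -(α * E') + t₄ / (s₄ * n), ?_, ?_⟩
    · intro h0
      have : t₄ / (s₄ * n) = 0 := by linarith
      rcases div_eq_zero_iff.1 this with h1 | h1
      · exact ht₄ h1
      · exact mul_ne_zero hs₄ hn h1
    · rw [hp₄, hp₃']
      have h5 : s₄ * n * (-(α * E') + t₄ / (s₄ * n)) = s₄ * n * -(α * E') + t₄ := by
        field_simp
      rw [sm3, sm3, sm3, h5, add_smul, show s₄ * (n * x₃) = s₄ * n * x₃ by ring,
        show s₄ * (n * -(α * E')) = s₄ * n * -(α * E') by ring,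
        show s₄ * (n * -B') = s₄ * n * -B' by ring]
      abel
  have g₄ : G c (x₃ • a + y₄ • b + (-B') • d) = 0 := by
    rw [hp₄', G_s] at hG₄
    rcases mul_eq_zero.1 hG₄ with h1 | h1
    · exact absurd h1 (pow_ne_zero 3 hr)
    · exact h1
  have v₄ := vieta (P := γ * x₃ - δ * B') (Q := α * x₃ ^ 2 + ζ * B' ^ 2 - η * x₃ * B')
    (R := -(β * x₃ ^ 2 * B') + ε * B' ^ 2 * x₃) (u := -(α * E')) (v := y₄)
    (by rw [GF] at g₃; linear_combination g₃)
    (by rw [GF] at g₄; linear_combination g₄) hy₄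
  have hP4 : γ * x₃ - δ * B' ≠ 0 := by
    intro h0
    obtain ⟨w1, w2⟩ := v₄
    rw [h0] at w1 w2
    refine NB x₃ (-B') (Or.inr (neg_ne_zero.2 hB0)) ?_ ?_ ?_
    · linear_combination h0
    · linear_combination w2
    · linear_combination -w1
  have NP4 : N * (γ * x₃ - δ * B') = -(B' ^ 2 * D') := by
    have id2 : α * γ * J - δ * N = -(B' * D') := by
      rw [hN, hJ, hE', hB', hD']; ring
    linear_combination γ * x3N + B' * id2
  have hD0 : D' ≠ 0 := by
    intro h0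
    rw [h0] at NP4
    have : N * (γ * x₃ - δ * B') = 0 := by rw [NP4]; ring
    rcases mul_eq_zero.1 this with h1 | h1
    · exact hN0 h1
    · exact hP4 h1
  have y4N : N * D' * y₄ = B' * J * C' := by
    have hne : α * B' ^ 2 * E' ≠ 0 :=
      mul_ne_zero (mul_ne_zero hα0 (pow_ne_zero 2 hB0)) hE0
    apply mul_left_cancel₀ hne
    have w1 := v₄.1
    have id3 : α * β * J - ε * N = -(E' * C') := by
      rw [hN, hJ, hE', hB', hC']; ring
    -- N ^ 2 * w1
    have q1 : N ^ 2 * (-(β * x₃ ^ 2 * B') + ε * B' ^ 2 * x₃) = α * B' ^ 3 * J * E' * C' := by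
      have q2 : N ^ 2 * (-(β * x₃ ^ 2 * B') + ε * B' ^ 2 * x₃) =
          -(N * x₃) * B' * (β * (N * x₃) - ε * B' * N) := by ring
      rw [q2, x3N]
      linear_combination -(α * B' * J) * B' * B' * id3
    have q3 : N ^ 2 * ((γ * x₃ - δ * B') * -(α * E') * y₄) =
        N * (N * (γ * x₃ - δ * B')) * -(α * E') * y₄ := by ring
    rw [NP4] at q3
    linear_combination -q3 + N ^ 2 * w1 + q1
  refine ⟨B', C', D', E', J, N, r * B' / (N * D'), hB', hC', hD', hE', hJ, hN, hα0, hγ0, hN0, hD0,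
    div_ne_zero (mul_ne_zero hr hB0) (mul_ne_zero hN0 hD0), ?_⟩
  rw [hp₄']
  simp only [smul_add, smul_smul]
  have f1 : r * x₃ = r * B' / (N * D') * (α * J * D') := by
    rw [div_mul_eq_mul_div, eq_div_iff (mul_ne_zero hN0 hD0)]
    linear_combination (r * D') * x3N
  have f2 : r * y₄ = r * B' / (N * D') * (J * C') := by
    rw [div_mul_eq_mul_div, eq_div_iff (mul_ne_zero hN0 hD0)]
    linear_combination r * y4N
  have f3 : r * -B' = r * B' / (N * D') * -(N * D') := by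
    field_simp
  rw [f1, f2, f3]

theorem clo : CLOStmt := by
  intro c a b d p₁ p₂ p₃ p₄ h
  obtain ⟨α, hα⟩ : ∃ α, 3 * T c a a b = α := ⟨_, rfl⟩
  obtain ⟨β, hβ⟩ : ∃ β, 3 * T c a a d = β := ⟨_, rfl⟩
  obtain ⟨γ, hγ⟩ : ∃ γ, 3 * T c a b b = γ := ⟨_, rfl⟩
  obtain ⟨δ, hδ⟩ : ∃ δ, 3 * T c b b d = δ := ⟨_, rfl⟩
  obtain ⟨ε, hε⟩ : ∃ ε, 3 * T c a d d = ε := ⟨_, rfl⟩
  obtain ⟨ζ, hζ⟩ : ∃ ζ, 3 * T c b d d = ζ := ⟨_, rfl⟩
  obtain ⟨η, hη⟩ : ∃ η, 6 * T c a b d = η := ⟨_, rfl⟩
  obtain ⟨B', C', D', E', J, N, κ, hB', hC', hD', hE', hJ, hN, hα0, hγ0, hN0, hD0, hκ, hp⟩ :=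
    chain_coords h α β γ δ ε ζ η hα hβ hγ hδ hε hζ hη
  have ind := h.ind
  have Ga := h.na.1
  have Gb := h.nb.1
  have Gd := h.nd.1
  have GF : ∀ x y z : ℝ, G c (x • a + y • b + z • d) =
      α * x ^ 2 * y + β * x ^ 2 * z + γ * y ^ 2 * x + δ * y ^ 2 * z + ε * z ^ 2 * x +
        ζ * z ^ 2 * y + η * x * y * z := by
    intro x y z
    rw [G_frame, Ga, Gb, Gd, hα, hβ, hγ, hδ, hε, hζ, hη]
    ring
  have FA : ∀ x y z : ℝ, 3 * T c a a (x • a + y • b + z • d) = α * y + β * z := by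
    intro x y z
    rw [Taa, Ga, hα, hβ]
    ring
  have FA2 : ∀ x y z : ℝ, 3 * T c a (x • a + y • b + z • d) (x • a + y • b + z • d) =
      2 * x * (α * y + β * z) + γ * y ^ 2 + ε * z ^ 2 + η * y * z := by
    intro x y z
    rw [Ta, Ga, hα, hβ, hγ, hε, hη]
    ring
  have FD : ∀ x y z : ℝ, 3 * T c d d (x • a + y • b + z • d) = ε * x + ζ * y := by
    intro x y z
    rw [Tdd, Gd, hε, hζ]
    ring
  have G_s : ∀ (r : ℝ) (v : V), G c (r • v) = r ^ 3 * G c v := by
    intro r v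
    simp only [G, T_smul_left, T_smul_mid, T_smul_right]
    ring
  have idN : N = γ * C' + α ^ 2 * D' := by rw [hN, hE', hB', hC', hD']; ring
  have idJ : α * ε * D' + ζ * C' = β * J := by rw [hC', hD', hJ]; ring
  have g₄ : G c ((α * J * D') • a + (J * C') • b + (-(N * D')) • d) = 0 := by
    have k := h.e₄.2
    rw [hp, G_s] at k
    rcases mul_eq_zero.1 k with h1 | h1
    · exact absurd h1 (pow_ne_zero 3 hκ)
    · exact h1
  refine ⟨?_, ?_⟩
  · intro p₅ hnd h5
    have hJ0 : J ≠ 0 := by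
      intro h0
      apply hnd (κ * -(N * D'))
      rw [hp, h0, mul_zero, zero_mul, zero_mul, zero_smul, zero_smul, zero_add, zero_add, smul_smul]
    obtain ⟨⟨s, t, hs, ht, h5e⟩, hG5⟩ := h5
    obtain ⟨n, hn, z₅, hz₅, hp₅⟩ : ∃ n : ℝ, n ≠ 0 ∧ ∃ z₅ : ℝ, z₅ ≠ -(N * D') ∧
        p₅ = n • ((α * J * D') • a + (J * C') • b + z₅ • d) := by
      refine ⟨s * κ, mul_ne_zero hs hκ, -(N * D') + t / (s * κ), ?_, ?_⟩
      · intro h0
        have : t / (s * κ) = 0 := by linarith
        rcases div_eq_zero_iff.1 this with h1 | h1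
        · exact ht h1
        · exact mul_ne_zero hs hκ h1
      · rw [h5e, hp]
        have h5 : s * κ * (-(N * D') + t / (s * κ)) = s * κ * -(N * D') + t := by
          field_simp
        rw [sm3, sm3, sm3, h5, add_smul, show s * (κ * (α * J * D')) = s * κ * (α * J * D') by ring,
          show s * (κ * (J * C')) = s * κ * (J * C') by ring,
          show s * (κ * -(N * D')) = s * κ * -(N * D') by ring]
        abel
    have g₅ : G c ((α * J * D') • a + (J * C') • b + z₅ • d) = 0 := by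
      rw [hp₅, G_s] at hG5
      rcases mul_eq_zero.1 hG5 with h1 | h1
      · exact absurd h1 (pow_ne_zero 3 hn)
      · exact h1
    have v₅ := vieta (P := ε * (α * J * D') + ζ * (J * C'))
      (Q := β * (α * J * D') ^ 2 + δ * (J * C') ^ 2 + η * (α * J * D') * (J * C'))
      (R := α * (α * J * D') ^ 2 * (J * C') + γ * (J * C') ^ 2 * (α * J * D'))
      (u := -(N * D')) (v := z₅)
      (by rw [GF] at g₄; linear_combination g₄)
      (by rw [GF] at g₅; linear_combination g₅) hz₅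
    have key : α * (J * C') + β * z₅ = 0 := by
      have hne : J ^ 2 * N * D' ≠ 0 := mul_ne_zero (mul_ne_zero (pow_ne_zero 2 hJ0) hN0) hD0
      apply mul_left_cancel₀ hne
      rw [mul_zero]
      have w1 := v₅.1
      have q1 : ε * (α * J * D') + ζ * (J * C') = J * (β * J) := by
        rw [← idJ]; ring
      rw [q1] at w1
      have q2 : α * (α * J * D') ^ 2 * (J * C') + γ * (J * C') ^ 2 * (α * J * D') =
          α * J ^ 3 * C' * D' * N := by
        rw [idN]; ring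
      rw [q2] at w1
      linear_combination -w1
    refine ⟨?_, ?_⟩
    · have k := FA (α * J * D') (J * C') z₅
      rw [key] at k
      rw [hp₅, T_smul_right]
      have : T c a a ((α * J * D') • a + (J * C') • b + z₅ • d) = 0 := by linarith
      rw [this, mul_zero]
    · intro k hk v hv
      have hC0 : C' = 0 := by
        by_contra hC0
        rw [hp₅] at hk
        have e : (n * (α * J * D')) • a + (n * (J * C')) • b + (n * z₅) • d = k • a := by
          rw [← hk, smul_add, smul_add, smul_smul, smul_smul, smul_smul]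
        exact ind_b ind (Or.inl (mul_ne_zero hn (mul_ne_zero hJ0 hC0))) e
      obtain ⟨x, y, z, rfl⟩ := span3 ind v
      have k1 := FA x y z
      rw [hv, mul_zero] at k1
      have k2 := FA2 x y z
      have k3 : α ^ 2 * (γ * y ^ 2 + ε * z ^ 2 + η * y * z) = 0 := by
        have k4 : α * y = -(β * z) := by linarith
        have k5 : α ^ 2 * (γ * y ^ 2 + ε * z ^ 2 + η * y * z) =
            γ * (α * y) ^ 2 + α ^ 2 * ε * z ^ 2 + η * α * (α * y) * z := by ring
        rw [k5, k4]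
        rw [hC'] at hC0
        linear_combination z ^ 2 * hC0
      have k6 : γ * y ^ 2 + ε * z ^ 2 + η * y * z = 0 := by
        rcases mul_eq_zero.1 k3 with h1 | h1
        · exact absurd h1 (pow_ne_zero 2 hα0)
        · exact h1
      rw [← k1] at k2
      linarith
  · intro w hw hna
    obtain ⟨x, y, z, rfl⟩ := span3 ind w
    have k1 : α * y + β * z = 0 := by
      have := FA x y z
      rw [hw, mul_zero] at this
      exact this.symm
    have k2 := FA2 x y z
    have k4 : α * y = -(β * z) := by linarith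
    set q := 3 * T c a (x • a + y • b + z • d) (x • a + y • b + z • d) with hq
    have q1 : α ^ 2 * q = C' * z ^ 2 := by
      rw [k2, k1]
      have k5 : α ^ 2 * (2 * x * 0 + γ * y ^ 2 + ε * z ^ 2 + η * y * z) =
          γ * (α * y) ^ 2 + α ^ 2 * ε * z ^ 2 + η * α * (α * y) * z := by ring
      rw [k5, k4, hC']
      ring
    have hg : G c (x • a + y • b + z • d) = x * q + (δ * y ^ 2 * z + ζ * z ^ 2 * y) := by
      rw [GF, k2]
      linear_combination -(x ^ 2) * k1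
    have hres : resid c a (x • a + y • b + z • d) =
        (δ * y ^ 2 * z + ζ * z ^ 2 * y) • a + (-(q * y)) • b + (-(q * z)) • d := by
      unfold resid
      rw [← hq, hg]
      simp only [smul_add, smul_smul, add_smul]
      rw [show -q * x = -(x * q) by ring, show -q * y = -(q * y) by ring,
        show -q * z = -(q * z) by ring, neg_smul (x * q)]
      abel
    have qx : α ^ 3 * (δ * y ^ 2 * z + ζ * z ^ 2 * y) = α * β * D' * z ^ 3 := by
      have k5 : α ^ 3 * (δ * y ^ 2 * z + ζ * z ^ 2 * y) =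
          α * δ * (α * y) ^ 2 * z + α ^ 2 * ζ * z ^ 2 * (α * y) := by ring
      rw [k5, k4, hD']
      ring
    have qy : α ^ 3 * (-(q * y)) = β * C' * z ^ 3 := by
      have k5 : α ^ 3 * (-(q * y)) = -((α ^ 2 * q) * (α * y)) := by ring
      rw [k5, q1, k4]
      ring
    have hα3 : α ^ 3 ≠ 0 := pow_ne_zero 3 hα0
    rw [hres]
    refine ⟨?_, ?_⟩
    · rw [hp]
      have e : κ • ((α * J * D') • a + (J * C') • b + (-(N * D')) • d) =
          (κ * (α * J * D')) • a + (κ * (J * C')) • b + (κ * -(N * D')) • d := by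
        rw [smul_add, smul_add, smul_smul, smul_smul, smul_smul]
      rw [e, det_frame]
      have e2 : κ * (J * C') * (δ * y ^ 2 * z + ζ * z ^ 2 * y) - κ * (α * J * D') * -(q * y) = 0 := by
        apply mul_left_cancel₀ hα3
        rw [mul_zero]
        linear_combination κ * J * C' * qx - κ * α * J * D' * qy
      rw [e2, zero_mul]
    · intro k hk
      have hJ0 : J = 0 := by
        by_contra hJ0
        rw [hp] at hk
        have e : (κ * (α * J * D')) • a + (κ * (J * C')) • b + (κ * -(N * D')) • d = k • d := by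
          rw [← hk, smul_add, smul_add, smul_smul, smul_smul, smul_smul]
        exact ind_d ind (Or.inl (mul_ne_zero hκ (mul_ne_zero (mul_ne_zero hα0 hJ0) hD0))) e
      have k7 := FD (δ * y ^ 2 * z + ζ * z ^ 2 * y) (-(q * y)) (-(q * z))
      have k8 : ε * (δ * y ^ 2 * z + ζ * z ^ 2 * y) + ζ * (-(q * y)) = 0 := by
        apply mul_left_cancel₀ hα3
        rw [mul_zero]
        rw [hJ0, mul_zero] at idJ
        linear_combination ε * qx + ζ * qy + β * z ^ 3 * idJ
      rw [k8] at k7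
      linarith

end Pool.Agent.NCub.H39
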